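import Mathlib
import Pool.Agent.V11100.Blocks

open Filter Topology
open Pool.Agent.V11100
open scoped ENNReal NNReal

namespace Pool.Agent.Results.MP_c77635_an.NoLorentzSqueeze

section Defs

variable (𝕜 : Type*) [RCLike 𝕜]

/-- The Hilbert space `ℓ²`. -/
abbrev L2 : Type _ := lp (fun _ : ℕ => 𝕜) 2

variable {𝕜}
variable {E : Type*} [NormedAddCommGroup E] [NormedSpace 𝕜 E]

/-- `(x_n)` is a basis with coordinate functionals `(f_n)`. -/
structure IsBasis (x : ℕ → E) (f : ℕ → StrongDual 𝕜 E) : Prop where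
  dense : (Submodule.span 𝕜 (Set.range x)).topologicalClosure = ⊤
  biorth : ∀ i j, f i (x j) = if i = j then 1 else 0
  total : ∀ v : E, (∀ n, f n v = 0) → v = 0
  bounded : ∃ C : ℝ, ∀ n, ‖x n‖ ≤ C ∧ ‖f n‖ ≤ C

/-- `φ_m = sup { ‖∑_{n ∈ A} ε_n u_n‖ : |A| ≤ m, |ε_n| = 1 }`. -/
noncomputable def phi (𝕜 : Type*) [RCLike 𝕜] {E : Type*} [NormedAddCommGroup E] [NormedSpace 𝕜 E]
    (u : ℕ → E) (m : ℕ) : ℝ :=
  sSup {r : ℝ | ∃ (A : Finset ℕ) (ε : ℕ → 𝕜), A.card ≤ m ∧ (∀ n, ‖ε n‖ = 1) ∧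
    r = ‖∑ n ∈ A, ε n • u n‖}

/-- Bidemocratic bases. -/
def IsBidemocratic (x : ℕ → E) (f : ℕ → StrongDual 𝕜 E) : Prop :=
  ∃ C : ℝ, ∀ m : ℕ, 1 ≤ m → phi 𝕜 x m * phi 𝕜 f m ≤ C * m

/-- The non-increasing rearrangement: `rearr a n` is the `(n+1)`-st largest of the `|a_k|`. -/
noncomputable def rearr (a : ℕ → 𝕜) (n : ℕ) : ℝ≥0∞ :=
  sInf {t : ℝ≥0∞ | {k : ℕ | t < ‖a k‖ₑ}.encard ≤ n}

/-- The Lorentz norm `‖a‖_{2,s}`. -/
noncomputable def lorentz (s : ℝ) (a : ℕ → 𝕜) : ℝ≥0∞ :=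
  (∑' n : ℕ, (rearr a n) ^ s * ENNReal.ofReal (((n : ℝ) + 1) ^ (s / 2 - 1))) ^ (1 / s)

/-- The embedding of `ℓ_{2,s}` into `E` through `(x_n)`. -/
def EmbedsFrom (𝕜 : Type*) [RCLike 𝕜] {E : Type*} [NormedAddCommGroup E] [NormedSpace 𝕜 E]
    (s : ℝ) (x : ℕ → E) : Prop :=
  ∃ C : ℝ≥0, ∀ a : ℕ →₀ 𝕜, ‖a.sum (fun n c => c • x n)‖ₑ ≤ C * lorentz s (fun n => a n)

end Defs

/-! ### The weights -/

/-- Position inside the block. -/
def idx (n : ℕ) : ℕ := n - Nat.sqrt n * Nat.sqrt n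

/-- The weight `b`. -/
noncomputable def b (n : ℕ) : ℝ := 1 / Real.sqrt ((idx n : ℝ) + 1)

theorem b_pos (n : ℕ) : 0 < b n := by unfold b; positivity

theorem sqrt_add (N j : ℕ) (hj : j < 2 * N + 1) : Nat.sqrt (N * N + j) = N := by
  symm
  rw [Nat.eq_sqrt]
  constructor
  · omega
  · have : (N + 1) * (N + 1) = N * N + (2 * N + 1) := by ring
    omega

theorem idx_add (N j : ℕ) (hj : j < 2 * N + 1) : idx (N * N + j) = j := by
  unfold idx
  rw [sqrt_add N j hj]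
  omega

theorem block_eq (N : ℕ) : block N = (Finset.range (2 * N + 1)).image (fun j => N * N + j) := by
  ext n
  rw [mem_block, Finset.mem_image]
  constructor
  · intro h
    refine ⟨n - N * N, ?_, ?_⟩
    · have h1 : n < (Nat.sqrt n + 1) * (Nat.sqrt n + 1) := Nat.lt_succ_sqrt n
      rw [h] at h1
      have : (N + 1) * (N + 1) = N * N + (2 * N + 1) := by ring
      have h2 := Nat.sqrt_le n
      rw [h] at h2
      rw [Finset.mem_range]
      omega
    · have h2 := Nat.sqrt_le n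
      rw [h] at h2
      omega
  · rintro ⟨j, hj, rfl⟩
    exact sqrt_add N j (Finset.mem_range.mp hj)

theorem sum_block (f : ℕ → ℝ) (N : ℕ) :
    ∑ n ∈ block N, f n = ∑ j ∈ Finset.range (2 * N + 1), f (N * N + j) := by
  rw [block_eq, Finset.sum_image]
  intro a _ c _ h
  simpa using h

/-- The squared norm of `b` on the block. -/
noncomputable def H (N : ℕ) : ℝ := ∑ n ∈ block N, b n ^ 2

theorem b_sq (n : ℕ) : b n ^ 2 = 1 / ((idx n : ℝ) + 1) := by
  unfold b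
  rw [div_pow, one_pow, Real.sq_sqrt (by positivity)]

theorem H_eq (N : ℕ) : H N = ∑ j ∈ Finset.range (2 * N + 1), 1 / ((j : ℝ) + 1) := by
  unfold H
  rw [sum_block]
  refine Finset.sum_congr rfl (fun j hj => ?_)
  rw [b_sq, idx_add N j (Finset.mem_range.mp hj)]

theorem one_le_H (N : ℕ) : 1 ≤ H N := by
  rw [H_eq]
  have h := Finset.single_le_sum (f := fun j : ℕ => 1 / ((j : ℝ) + 1))
    (fun j _ => by positivity) (Finset.mem_range.mpr (Nat.succ_pos (2 * N)))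
  simpa using h

/-- `β_N`. -/
noncomputable def β (N : ℕ) : ℝ := Real.sqrt (H N)

theorem β_pos (N : ℕ) : 0 < β N := Real.sqrt_pos.mpr (lt_of_lt_of_le zero_lt_one (one_le_H N))

theorem one_le_β (N : ℕ) : 1 ≤ β N := by
  unfold β
  rw [Real.one_le_sqrt]
  exact one_le_H N

theorem β_sq (N : ℕ) : β N ^ 2 = H N := Real.sq_sqrt (le_trans zero_le_one (one_le_H N))

theorem sum_inv_sqrt (m : ℕ) :
    ∑ j ∈ Finset.range m, 1 / Real.sqrt ((j : ℝ) + 1) ≤ 2 * Real.sqrt m := by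
  induction m with
  | zero => simp
  | succ m ih =>
    rw [Finset.sum_range_succ]
    have h1 : 1 / Real.sqrt ((m : ℝ) + 1) ≤ 2 * (Real.sqrt ((m : ℝ) + 1) - Real.sqrt m) := by
      have hp : 0 < Real.sqrt ((m : ℝ) + 1) := by positivity
      have hq : 0 ≤ Real.sqrt (m : ℝ) := Real.sqrt_nonneg _
      have hle : Real.sqrt (m : ℝ) ≤ Real.sqrt ((m : ℝ) + 1) := Real.sqrt_le_sqrt (by linarith)
      have e1 : Real.sqrt ((m : ℝ) + 1) ^ 2 = (m : ℝ) + 1 := Real.sq_sqrt (by positivity)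
      have e2 : Real.sqrt (m : ℝ) ^ 2 = (m : ℝ) := Real.sq_sqrt (by positivity)
      rw [div_le_iff₀ hp]
      nlinarith
    push_cast
    linarith

theorem sum_b_le (N : ℕ) (S : Finset ℕ) (hS : S ⊆ block N) :
    ∑ n ∈ S, b n ≤ 3 * Real.sqrt S.card := by
  classical
  set m := S.card with hm
  rcases Nat.eq_zero_or_pos m with h0 | h0
  · have : S = ∅ := Finset.card_eq_zero.mp (hm ▸ h0)
    simp [this]
  have hmpos : (0 : ℝ) < m := by exact_mod_cast h0
  rw [← Finset.sum_filter_add_sum_filter_not S (fun n => idx n < m)]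
  have h1 : ∑ n ∈ S.filter (fun n => idx n < m), b n ≤ 2 * Real.sqrt m := by
    refine le_trans ?_ (sum_inv_sqrt m)
    have h2 : ∑ n ∈ S.filter (fun n => idx n < m), b n
        = ∑ j ∈ (S.filter (fun n => idx n < m)).image idx, 1 / Real.sqrt ((j : ℝ) + 1) := by
      rw [Finset.sum_image]
      · rfl
      · intro a ha c hc hac
        have ha1 := mem_block.mp (hS (by simpa using ha : a ∈ S ∧ idx a < m).1)
        have hc1 := mem_block.mp (hS (by simpa using hc : c ∈ S ∧ idx c < m).1)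
        unfold idx at hac
        rw [ha1, hc1] at hac
        have ha2 := Nat.sqrt_le a
        have hc2 := Nat.sqrt_le c
        rw [ha1] at ha2
        rw [hc1] at hc2
        omega
    rw [h2]
    apply Finset.sum_le_sum_of_subset_of_nonneg
    · intro j hj
      obtain ⟨n, hn, rfl⟩ := Finset.mem_image.mp hj
      exact Finset.mem_range.mpr (Finset.mem_filter.mp hn).2
    · intro j _ _
      positivity
  have h3 : ∑ n ∈ S.filter (fun n => ¬ idx n < m), b n ≤ Real.sqrt m := by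
    have h4 : ∀ n ∈ S.filter (fun n => ¬ idx n < m), b n ≤ 1 / Real.sqrt m := by
      intro n hn
      have h5 : m ≤ idx n := not_lt.mp (Finset.mem_filter.mp hn).2
      unfold b
      apply one_div_le_one_div_of_le (Real.sqrt_pos.mpr hmpos)
      apply Real.sqrt_le_sqrt
      have : (m : ℝ) ≤ idx n := by exact_mod_cast h5
      linarith
    refine (Finset.sum_le_sum h4).trans ?_
    rw [Finset.sum_const, nsmul_eq_mul]
    have h6 : ((S.filter (fun n => ¬ idx n < m)).card : ℝ) ≤ m := by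
      exact_mod_cast Finset.card_filter_le _ _
    have h7 : (m : ℝ) * (1 / Real.sqrt m) = Real.sqrt m := by
      rw [mul_one_div, Real.div_sqrt]
    calc _ ≤ (m : ℝ) * (1 / Real.sqrt m) := by gcongr
      _ = _ := h7
  linarith

/-! ### The vectors -/

section Vectors
variable {𝕜 : Type*} [RCLike 𝕜]

/-- Unit vectors. -/
noncomputable def e (𝕜 : Type*) [RCLike 𝕜] (n : ℕ) : L2 𝕜 := lp.single 2 n (1 : 𝕜)

theorem e_apply (i j : ℕ) : e 𝕜 j i = if i = j then 1 else 0 := by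
  rw [e, lp.single_apply]; simp [Pi.single_apply]

/-- Evaluation. -/
noncomputable def ev (𝕜 : Type*) [RCLike 𝕜] (j : ℕ) : L2 𝕜 →L[𝕜] 𝕜 :=
  lp.evalCLM 𝕜 (fun _ : ℕ => 𝕜) 2 j

theorem ev_apply (j : ℕ) (x : L2 𝕜) : ev 𝕜 j x = x j := rfl

/-- The block vector. -/
noncomputable def bv (𝕜 : Type*) [RCLike 𝕜] (N : ℕ) : L2 𝕜 := ∑ k ∈ block N, ((b k : ℝ) : 𝕜) • e 𝕜 k

theorem bv_apply (N k : ℕ) : bv 𝕜 N k = if Nat.sqrt k = N then ((b k : ℝ) : 𝕜) else 0 := by
  rw [← ev_apply, bv, map_sum]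
  simp only [map_smul, ev_apply, e_apply, smul_eq_mul, mul_ite, mul_one, mul_zero]
  rw [Finset.sum_ite_eq]
  simp only [mem_block]

/-- The general vectors `e_n + t_N b_n b_N`. -/
noncomputable def vec (𝕜 : Type*) [RCLike 𝕜] (t : ℕ → ℝ) (n : ℕ) : L2 𝕜 :=
  e 𝕜 n + ((t (Nat.sqrt n) * b n : ℝ) : 𝕜) • bv 𝕜 (Nat.sqrt n)

theorem norm_sq_eq (w : L2 𝕜) : ‖w‖ ^ 2 = ∑' i, ‖w i‖ ^ 2 := by
  have := lp.norm_rpow_eq_tsum (p := 2) (by norm_num) w
  simpa using this

theorem upper (t : ℕ → ℝ) (ht : ∀ N, |t N| * β N ≤ 1) (A : Finset ℕ) (ε : ℕ → 𝕜)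
    (hε : ∀ n, ‖ε n‖ = 1) : ‖∑ n ∈ A, ε n • vec 𝕜 t n‖ ≤ 4 * Real.sqrt A.card := by
  classical
  have h1 : ∑ n ∈ A, ε n • vec 𝕜 t n = ∑ n ∈ A, ε n • e 𝕜 n
      + ∑ n ∈ A, (ε n * ((t (Nat.sqrt n) * b n : ℝ) : 𝕜)) • bv 𝕜 (Nat.sqrt n) := by
    rw [← Finset.sum_add_distrib]
    refine Finset.sum_congr rfl (fun n _ => ?_)
    rw [vec, smul_add, smul_smul]
  rw [h1]
  have h2 : ‖∑ n ∈ A, ε n • e 𝕜 n‖ = Real.sqrt A.card := by
    have h3 := lp.norm_sum_single (p := 2) (by norm_num) (fun n => ε n) A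
    have h4 : (2 : ENNReal).toReal = ((2 : ℕ) : ℝ) := by norm_num
    simp only [h4, Real.rpow_natCast, hε, one_pow, Finset.sum_const, nsmul_eq_mul, mul_one] at h3
    have h5 : ∑ n ∈ A, ε n • e 𝕜 n = ∑ n ∈ A, lp.single 2 n (ε n) := by
      refine Finset.sum_congr rfl (fun n _ => ?_)
      rw [e, ← lp.single_smul, smul_eq_mul, mul_one]
    rw [h5, ← h3, Real.sqrt_sq (norm_nonneg _)]
  set z : L2 𝕜 := ∑ n ∈ A, (ε n * ((t (Nat.sqrt n) * b n : ℝ) : 𝕜)) • bv 𝕜 (Nat.sqrt n) with hz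
  let c : ℕ → 𝕜 := fun N => ∑ n ∈ A.filter (fun n => Nat.sqrt n = N), ε n * ((b n : ℝ) : 𝕜)
  have hzk : ∀ k, z k = ((t (Nat.sqrt k) : ℝ) : 𝕜) * c (Nat.sqrt k) * ((b k : ℝ) : 𝕜) := by
    intro k
    rw [← ev_apply, hz, map_sum]
    simp only [map_smul, ev_apply, bv_apply, smul_eq_mul, c]
    rw [Finset.sum_filter, Finset.mul_sum, Finset.sum_mul]
    refine Finset.sum_congr rfl (fun n _ => ?_)
    by_cases h : Nat.sqrt k = Nat.sqrt n
    · rw [if_pos h, if_pos h.symm, h, RCLike.ofReal_mul]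
      ring
    · rw [if_neg h, if_neg (fun h' => h h'.symm)]
      ring
  have hc : ∀ N, ‖c N‖ ≤ 3 * Real.sqrt (A.filter (fun n => Nat.sqrt n = N)).card := by
    intro N
    refine le_trans ?_ (sum_b_le N (A.filter (fun n => Nat.sqrt n = N)) (by
      intro n hn
      exact mem_block.mpr (Finset.mem_filter.mp hn).2))
    refine (norm_sum_le _ _).trans (Finset.sum_le_sum (fun n _ => ?_))
    rw [norm_mul, hε, one_mul, RCLike.norm_ofReal, abs_of_pos (b_pos n)]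
  obtain ⟨K, hK⟩ : ∃ K : ℕ, ∀ n ∈ A, n < K * K := by
    refine ⟨A.sup id + 1, fun n hn => ?_⟩
    have h1 : n ≤ A.sup id := Finset.le_sup (f := id) hn
    nlinarith
  have hcK : ∀ N, K ≤ N → A.filter (fun n => Nat.sqrt n = N) = ∅ := by
    intro N hN
    rw [Finset.filter_eq_empty_iff]
    intro n hn h
    have h6 : Nat.sqrt n < K := Nat.sqrt_lt.mpr (hK n hn)
    omega
  have h3 : ‖z‖ ^ 2 ≤ (3 * Real.sqrt A.card) ^ 2 := by
    rw [norm_sq_eq, tsum_eq_sum (s := Finset.range (K * K))]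
    · rw [← sum_blocks]
      have h7 : ∀ N ∈ Finset.range K, ∑ k ∈ block N, ‖z k‖ ^ 2
          ≤ 9 * ((A.filter (fun n => Nat.sqrt n = N)).card : ℝ) := by
        intro N _
        have h8 : ∑ k ∈ block N, ‖z k‖ ^ 2 = (|t N| * β N) ^ 2 * ‖c N‖ ^ 2 := by
          rw [mul_pow, β_sq, H, Finset.mul_sum, Finset.sum_mul]
          refine Finset.sum_congr rfl (fun k hk => ?_)
          rw [hzk, mem_block.mp hk, norm_mul, norm_mul, RCLike.norm_ofReal, RCLike.norm_ofReal,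
            abs_of_pos (b_pos k)]
          ring
        rw [h8]
        have h9 : (|t N| * β N) ^ 2 ≤ 1 := by
          have h0 : 0 ≤ |t N| * β N := mul_nonneg (abs_nonneg _) (β_pos N).le
          exact pow_le_one₀ h0 (ht N)
        have h10 : ‖c N‖ ^ 2 ≤ 9 * ((A.filter (fun n => Nat.sqrt n = N)).card : ℝ) := by
          have h11 := pow_le_pow_left₀ (norm_nonneg _) (hc N) 2
          rw [mul_pow, Real.sq_sqrt (by positivity)] at h11
          linarith
        calc (|t N| * β N) ^ 2 * ‖c N‖ ^ 2 ≤ 1 * ‖c N‖ ^ 2 := by gcongr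
          _ ≤ _ := by rw [one_mul]; exact h10
      refine (Finset.sum_le_sum h7).trans ?_
      rw [← Finset.mul_sum, mul_pow, Real.sq_sqrt (by positivity)]
      have h12 : ∑ N ∈ Finset.range K, ((A.filter (fun n => Nat.sqrt n = N)).card : ℝ) ≤ A.card := by
        have h13 := Finset.card_eq_sum_card_fiberwise (f := Nat.sqrt) (s := A) (t := Finset.range K)
          (fun n hn => by
            have := Nat.sqrt_lt.mpr (hK n (by simpa using hn))
            simpa using this)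
        rw [h13]
        push_cast
        exact le_refl _
      nlinarith
    · intro k hk
      have hk' : K * K ≤ k := by simpa using hk
      have h14 : K ≤ Nat.sqrt k := Nat.le_sqrt.mpr hk'
      rw [hzk]
      simp only [c]
      rw [hcK _ h14]
      simp
  have h4 : ‖z‖ ≤ 3 * Real.sqrt A.card := le_of_sq_le_sq h3 (by positivity)
  calc _ ≤ ‖∑ n ∈ A, ε n • e 𝕜 n‖ + ‖z‖ := norm_add_le _ _
    _ ≤ 4 * Real.sqrt A.card := by rw [h2]; linarith

end Vectors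

/-! ### The basis -/

variable (𝕜 : Type) [RCLike 𝕜]

/-- The coefficient `1/β_N`. -/
noncomputable def tx (N : ℕ) : ℝ := 1 / β N
/-- The coefficient `-1/(β_N (1 + β_N))`. -/
noncomputable def ty (N : ℕ) : ℝ := -(1 / (β N * (1 + β N)))

theorem tx_bound (N : ℕ) : |tx N| * β N ≤ 1 := by
  unfold tx
  have := β_pos N
  rw [abs_of_pos (by positivity), one_div, inv_mul_cancel₀ this.ne']

theorem ty_bound (N : ℕ) : |ty N| * β N ≤ 1 := by
  unfold ty
  have h := β_pos N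
  rw [abs_neg, abs_of_pos (by positivity)]
  have e : 1 / (β N * (1 + β N)) * β N = 1 / (1 + β N) := by field_simp
  rw [e, div_le_one (by positivity)]
  linarith

/-- The basis vectors. -/
noncomputable def x (n : ℕ) : L2 𝕜 := vec 𝕜 tx n

/-- The coordinate functionals. -/
noncomputable def f (n : ℕ) : StrongDual 𝕜 (L2 𝕜) := innerSL 𝕜 (vec 𝕜 ty n)

/-- The pairing with the block vector. -/
noncomputable def ip (N : ℕ) : StrongDual 𝕜 (L2 𝕜) := ∑ k ∈ block N, ((b k : ℝ) : 𝕜) • ev 𝕜 k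

theorem ip_apply (N : ℕ) (v : L2 𝕜) : ip 𝕜 N v = ∑ k ∈ block N, ((b k : ℝ) : 𝕜) * v k := by
  simp [ip, ev_apply]

theorem inner_e (n : ℕ) (v : L2 𝕜) : inner 𝕜 (e 𝕜 n) v = v n := by
  rw [e, lp.inner_single_left]
  simp

theorem f_apply (n : ℕ) (v : L2 𝕜) :
    f 𝕜 n v = v n + ((ty (Nat.sqrt n) * b n : ℝ) : 𝕜) * ip 𝕜 (Nat.sqrt n) v := by
  rw [f, innerSL_apply_apply, vec, inner_add_left, inner_smul_left, inner_e, RCLike.conj_ofReal,
    bv, sum_inner, ip_apply]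
  congr 2
  refine Finset.sum_congr rfl (fun k _ => ?_)
  rw [inner_smul_left, inner_e, RCLike.conj_ofReal]

theorem ip_e (N j : ℕ) : ip 𝕜 N (e 𝕜 j) = if Nat.sqrt j = N then ((b j : ℝ) : 𝕜) else 0 := by
  rw [ip_apply]
  simp only [e_apply, mul_ite, mul_one, mul_zero]
  rw [Finset.sum_ite_eq']
  simp only [mem_block]

theorem ip_bv (N M : ℕ) : ip 𝕜 N (bv 𝕜 M) = if N = M then ((H N : ℝ) : 𝕜) else 0 := by
  rw [ip_apply]
  by_cases h : N = M
  · subst h
    rw [if_pos rfl, H, RCLike.ofReal_sum]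
    refine Finset.sum_congr rfl (fun k hk => ?_)
    rw [bv_apply, if_pos (mem_block.mp hk), ← RCLike.ofReal_mul, sq]
  · rw [if_neg h]
    refine Finset.sum_eq_zero (fun k hk => ?_)
    rw [bv_apply, if_neg, mul_zero]
    rw [mem_block.mp hk]
    exact h

theorem ip_x (N j : ℕ) : ip 𝕜 N (x 𝕜 j)
    = if Nat.sqrt j = N then (((1 + β N) * b j : ℝ) : 𝕜) else 0 := by
  rw [x, vec, map_add, map_smul, ip_e, ip_bv]
  by_cases h : Nat.sqrt j = N
  · subst h
    rw [if_pos rfl, if_pos rfl, if_pos rfl, smul_eq_mul, ← RCLike.ofReal_mul, ← RCLike.ofReal_add]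
    congr 1
    have := β_pos (Nat.sqrt j)
    rw [← β_sq, tx]
    field_simp
  · rw [if_neg h, if_neg (fun h' => h h'.symm), if_neg h, smul_zero, add_zero]

theorem biorth (i j : ℕ) : f 𝕜 i (x 𝕜 j) = if i = j then 1 else 0 := by
  rw [f_apply, ip_x]
  have h1 : (x 𝕜 j) i = (if i = j then 1 else 0) + ((tx (Nat.sqrt j) * b j : ℝ) : 𝕜)
      * (if Nat.sqrt i = Nat.sqrt j then ((b i : ℝ) : 𝕜) else 0) := by
    rw [← ev_apply, x, vec, map_add, map_smul, ev_apply, ev_apply, e_apply, bv_apply, smul_eq_mul]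
  rw [h1]
  by_cases h : Nat.sqrt j = Nat.sqrt i
  · rw [if_pos h.symm, if_pos h, h]
    have h2 : ((tx (Nat.sqrt i) * b j : ℝ) : 𝕜) * ((b i : ℝ) : 𝕜)
        + ((ty (Nat.sqrt i) * b i : ℝ) : 𝕜) * (((1 + β (Nat.sqrt i)) * b j : ℝ) : 𝕜) = 0 := by
      rw [← RCLike.ofReal_mul, ← RCLike.ofReal_mul, ← RCLike.ofReal_add, tx, ty]
      have := β_pos (Nat.sqrt i)
      have e1 : 1 / β (Nat.sqrt i) * b j * b i + -(1 / (β (Nat.sqrt i) * (1 + β (Nat.sqrt i)))) * b i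
          * ((1 + β (Nat.sqrt i)) * b j) = 0 := by
        field_simp
        ring
      rw [e1]
      simp
    rw [add_assoc, h2, add_zero]
  · have hij : i ≠ j := by
      rintro rfl
      exact h rfl
    rw [if_neg hij, if_neg (fun h' : Nat.sqrt i = Nat.sqrt j => h h'.symm), if_neg h]
    simp

theorem bv_mem_span (N : ℕ) : bv 𝕜 N ∈ Submodule.span 𝕜 (Set.range (x 𝕜)) := by
  have h1 : ∑ k ∈ block N, ((b k : ℝ) : 𝕜) • x 𝕜 k = (((1 + β N : ℝ)) : 𝕜) • bv 𝕜 N := by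
    have h2 : ∀ k ∈ block N, ((b k : ℝ) : 𝕜) • x 𝕜 k = ((b k : ℝ) : 𝕜) • e 𝕜 k
        + ((tx N * b k ^ 2 : ℝ) : 𝕜) • bv 𝕜 N := by
      intro k hk
      rw [x, vec, smul_add, smul_smul, ← RCLike.ofReal_mul, mem_block.mp hk]
      congr 3
      ring
    rw [Finset.sum_congr rfl h2, Finset.sum_add_distrib, ← Finset.sum_smul, ← RCLike.ofReal_sum,
      ← Finset.mul_sum]
    have h3 : tx N * ∑ k ∈ block N, b k ^ 2 = β N := by
      have h4 : ∑ k ∈ block N, b k ^ 2 = H N := rfl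
      have := β_pos N
      rw [h4, ← β_sq, tx]
      field_simp
    rw [h3, RCLike.ofReal_add, add_smul, RCLike.ofReal_one, one_smul]
    rfl
  have h5 : bv 𝕜 N = ((((1 + β N)⁻¹ : ℝ)) : 𝕜) • ∑ k ∈ block N, ((b k : ℝ) : 𝕜) • x 𝕜 k := by
    have := β_pos N
    rw [h1, smul_smul, ← RCLike.ofReal_mul, inv_mul_cancel₀ (by positivity), RCLike.ofReal_one,
      one_smul]
  rw [h5]
  exact Submodule.smul_mem _ _ (Submodule.sum_mem _ (fun k _ => Submodule.smul_mem _ _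
    (Submodule.subset_span ⟨k, rfl⟩)))

theorem e_mem_span (n : ℕ) : e 𝕜 n ∈ Submodule.span 𝕜 (Set.range (x 𝕜)) := by
  have h1 : e 𝕜 n = x 𝕜 n - ((tx (Nat.sqrt n) * b n : ℝ) : 𝕜) • bv 𝕜 (Nat.sqrt n) := by
    rw [x, vec]; abel
  rw [h1]
  exact Submodule.sub_mem _ (Submodule.subset_span ⟨n, rfl⟩)
    (Submodule.smul_mem _ _ (bv_mem_span 𝕜 _))

theorem norm_e (n : ℕ) : ‖e 𝕜 n‖ = 1 := by
  rw [e, lp.norm_single (by norm_num)]; simp

theorem norm_x (n : ℕ) : ‖x 𝕜 n‖ ≤ 4 := by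
  have := upper (𝕜 := 𝕜) tx tx_bound {n} (fun _ => 1) (fun _ => by simp)
  simpa [x] using this

theorem norm_f_sum (A : Finset ℕ) (ε : ℕ → 𝕜) (hε : ∀ n, ‖ε n‖ = 1) :
    ‖∑ n ∈ A, ε n • f 𝕜 n‖ ≤ 4 * Real.sqrt A.card := by
  apply ContinuousLinearMap.opNorm_le_bound _ (by positivity)
  intro v
  have h1 : (∑ n ∈ A, ε n • f 𝕜 n) v
      = inner 𝕜 (∑ n ∈ A, (starRingEnd 𝕜) (ε n) • vec 𝕜 ty n) v := by
    rw [sum_apply, sum_inner]
    refine Finset.sum_congr rfl (fun n _ => ?_)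
    rw [smul_apply, f, innerSL_apply_apply, inner_smul_left, RCLike.conj_conj, smul_eq_mul]
  rw [h1]
  refine (norm_inner_le_norm _ _).trans ?_
  gcongr
  exact upper ty ty_bound A _ (fun n => by rw [RCLike.norm_conj]; exact hε n)

theorem norm_f (n : ℕ) : ‖f 𝕜 n‖ ≤ 4 := by
  have := norm_f_sum 𝕜 {n} (fun _ => 1) (fun _ => by simp)
  simpa using this

theorem isBasis : IsBasis (x 𝕜) (f 𝕜) := by
  refine ⟨?_, biorth 𝕜, ?_, ⟨4, fun n => ⟨norm_x 𝕜 n, norm_f 𝕜 n⟩⟩⟩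
  · rw [eq_top_iff]
    rintro v -
    have h1 := (lp.hasSum_single (p := 2) (by norm_num) v).tendsto_sum_nat
    refine mem_closure_of_tendsto h1 (Eventually.of_forall (fun l => ?_))
    refine Submodule.sum_mem _ (fun i _ => ?_)
    have h2 : (lp.single 2 i (v i) : L2 𝕜) = v i • e 𝕜 i := by
      rw [e, ← lp.single_smul, smul_eq_mul, mul_one]
    rw [h2]
    exact Submodule.smul_mem _ _ (e_mem_span 𝕜 i)
  · intro v hv
    have hip : ∀ N, ip 𝕜 N v = 0 := by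
      intro N
      have h1 : ip 𝕜 N v = ((H N * (1 / (β N * (1 + β N))) : ℝ) : 𝕜) * ip 𝕜 N v := by
        have h2 : ∀ k ∈ block N, ((b k : ℝ) : 𝕜) * v k
            = ((b k ^ 2 * (1 / (β N * (1 + β N))) : ℝ) : 𝕜) * ip 𝕜 N v := by
          intro k hk
          have h3 := hv k
          rw [f_apply, mem_block.mp hk] at h3
          have h4 : v k = -(((ty N * b k : ℝ) : 𝕜) * ip 𝕜 N v) := eq_neg_of_add_eq_zero_left h3
          rw [h4, ty]
          push_cast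
          ring
        conv_lhs => rw [ip_apply, Finset.sum_congr rfl h2]
        rw [← Finset.sum_mul, ← RCLike.ofReal_sum, ← Finset.sum_mul]
        rfl
      have hβ := β_pos N
      have h5 : H N * (1 / (β N * (1 + β N))) = β N / (1 + β N) := by
        rw [← β_sq]; field_simp
      rw [h5] at h1
      have h6 : ((1 - β N / (1 + β N) : ℝ) : 𝕜) * ip 𝕜 N v = 0 := by
        rw [RCLike.ofReal_sub, sub_mul, ← h1, RCLike.ofReal_one, one_mul, sub_self]
      have h7 : (1 - β N / (1 + β N) : ℝ) ≠ 0 := by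
        have : 1 - β N / (1 + β N) = 1 / (1 + β N) := by field_simp; ring
        rw [this]
        positivity
      rcases mul_eq_zero.mp h6 with h8 | h8
      · exact absurd (RCLike.ofReal_eq_zero.mp h8) h7
      · exact h8
    apply lp.ext
    funext n
    have h1 := hv n
    rw [f_apply, hip, mul_zero, add_zero] at h1
    exact h1

theorem phi_x (m : ℕ) : phi 𝕜 (x 𝕜) m ≤ 4 * Real.sqrt m := by
  unfold phi
  apply csSup_le
  · exact ⟨_, ∅, fun _ => 1, by simp, fun _ => by simp, rfl⟩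
  · rintro r ⟨A, ε, hA, hε, rfl⟩
    refine (upper tx tx_bound A ε hε).trans ?_
    gcongr

theorem phi_f (m : ℕ) : phi 𝕜 (f 𝕜) m ≤ 4 * Real.sqrt m := by
  unfold phi
  apply csSup_le
  · exact ⟨_, ∅, fun _ => 1, by simp, fun _ => by simp, rfl⟩
  · rintro r ⟨A, ε, hA, hε, rfl⟩
    refine (norm_f_sum 𝕜 A ε hε).trans ?_
    gcongr

theorem phi_nonneg {E : Type*} [NormedAddCommGroup E] [NormedSpace 𝕜 E] (u : ℕ → E) (m : ℕ) :
    0 ≤ phi 𝕜 u m := by
  apply Real.sSup_nonneg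
  rintro r ⟨A, ε, _, _, rfl⟩
  exact norm_nonneg _

theorem bidem : IsBidemocratic (x 𝕜) (f 𝕜) := by
  refine ⟨16, fun m _ => ?_⟩
  calc phi 𝕜 (x 𝕜) m * phi 𝕜 (f 𝕜) m ≤ (4 * Real.sqrt m) * (4 * Real.sqrt m) :=
        mul_le_mul (phi_x 𝕜 m) (phi_f 𝕜 m) (phi_nonneg 𝕜 _ m) (by positivity)
    _ = 16 * m := by
        have := Real.mul_self_sqrt (Nat.cast_nonneg (α := ℝ) m)
        nlinarith

/-! ### Failure of the embedding -/

/-- The test sequence. -/
noncomputable def a (N : ℕ) : ℕ →₀ 𝕜 :=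
  Finsupp.onFinset (block N) (fun n => if n ∈ block N then ((b n : ℝ) : 𝕜) else 0) (fun n hn => by
    by_contra h
    simp [h] at hn)

theorem a_apply (N n : ℕ) : a 𝕜 N n = if n ∈ block N then ((b n : ℝ) : 𝕜) else 0 := rfl

theorem a_sum (N : ℕ) : (a 𝕜 N).sum (fun n c => c • x 𝕜 n) = (((1 + β N : ℝ)) : 𝕜) • bv 𝕜 N := by
  have h0 : (a 𝕜 N).sum (fun n c => c • x 𝕜 n) = ∑ k ∈ block N, ((b k : ℝ) : 𝕜) • x 𝕜 k := by
    rw [a, Finsupp.onFinset_sum]
    · refine Finset.sum_congr rfl (fun n hn => ?_)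
      rw [if_pos hn]
    · intro n
      exact zero_smul _ _
  rw [h0]
  have h2 : ∀ k ∈ block N, ((b k : ℝ) : 𝕜) • x 𝕜 k = ((b k : ℝ) : 𝕜) • e 𝕜 k
      + ((tx N * b k ^ 2 : ℝ) : 𝕜) • bv 𝕜 N := by
    intro k hk
    rw [x, vec, smul_add, smul_smul, ← RCLike.ofReal_mul, mem_block.mp hk]
    congr 3
    ring
  rw [Finset.sum_congr rfl h2, Finset.sum_add_distrib, ← Finset.sum_smul, ← RCLike.ofReal_sum,
    ← Finset.mul_sum]
  have h3 : tx N * ∑ k ∈ block N, b k ^ 2 = β N := by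
    have h4 : ∑ k ∈ block N, b k ^ 2 = H N := rfl
    have := β_pos N
    rw [h4, ← β_sq, tx]
    field_simp
  rw [h3, RCLike.ofReal_add, add_smul, RCLike.ofReal_one, one_smul]
  rfl

theorem norm_bv (N : ℕ) : ‖bv 𝕜 N‖ = β N := by
  have h1 : ‖bv 𝕜 N‖ ^ 2 = H N := by
    rw [norm_sq_eq, tsum_eq_sum (s := block N)]
    · refine Finset.sum_congr rfl (fun k hk => ?_)
      rw [bv_apply, if_pos (mem_block.mp hk), RCLike.norm_ofReal, sq_abs]
    · intro k hk
      rw [bv_apply, if_neg (fun h => hk (mem_block.mpr h))]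
      simp
  rw [β, ← h1, Real.sqrt_sq (norm_nonneg _)]

theorem rearr_le (N n : ℕ) : rearr (fun k => a 𝕜 N k) n ≤ ENNReal.ofReal (1 / Real.sqrt ((n : ℝ) + 1)) := by
  apply sInf_le
  show {k : ℕ | ENNReal.ofReal (1 / Real.sqrt ((n : ℝ) + 1)) < ‖a 𝕜 N k‖ₑ}.encard ≤ n
  have h1 : {k : ℕ | ENNReal.ofReal (1 / Real.sqrt ((n : ℝ) + 1)) < ‖a 𝕜 N k‖ₑ}
      ⊆ ((Finset.range n).image (fun j => N * N + j) : Finset ℕ) := by
    intro k hk
    rw [Set.mem_ofPred_eq, a_apply] at hk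
    split_ifs at hk with hkb
    · rw [← ofReal_norm, RCLike.norm_ofReal, abs_of_pos (b_pos k), b] at hk
      have h2 := (ENNReal.ofReal_lt_ofReal_iff (by positivity)).mp hk
      have h3 : Real.sqrt ((idx k : ℝ) + 1) < Real.sqrt ((n : ℝ) + 1) :=
        (one_div_lt_one_div (by positivity) (by positivity)).mp h2
      have h4 : (idx k : ℝ) + 1 < (n : ℝ) + 1 := (Real.sqrt_lt_sqrt_iff (by positivity)).mp h3
      have h5 : idx k < n := by
        have : (idx k : ℝ) < n := by linarith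
        exact_mod_cast this
      simp only [Finset.coe_image, Finset.coe_range, Set.mem_image, Set.mem_Iio]
      refine ⟨idx k, h5, ?_⟩
      unfold idx
      have h6 := Nat.sqrt_le k
      rw [mem_block.mp hkb] at h6 ⊢
      omega
    · simp at hk
  refine (Set.encard_le_encard h1).trans ?_
  rw [Set.encard_coe_eq_coe_finsetCard]
  have h7 := Finset.card_image_le (s := Finset.range n) (f := fun j => N * N + j)
  rw [Finset.card_range] at h7
  exact_mod_cast h7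

theorem rearr_zero (N n : ℕ) (hn : 2 * N + 1 ≤ n) : rearr (fun k => a 𝕜 N k) n = 0 := by
  rw [← nonpos_iff_eq_zero]
  apply sInf_le
  show {k : ℕ | 0 < ‖a 𝕜 N k‖ₑ}.encard ≤ n
  have h1 : {k : ℕ | 0 < ‖a 𝕜 N k‖ₑ} ⊆ (block N : Set ℕ) := by
    intro k hk
    rw [Set.mem_ofPred_eq, a_apply] at hk
    by_contra h
    rw [if_neg (by simpa using h)] at hk
    simp at hk
  refine (Set.encard_le_encard h1).trans ?_
  rw [Set.encard_coe_eq_coe_finsetCard, card_block]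
  exact_mod_cast hn

theorem lorentz_le (N : ℕ) {q : ℝ} (hq : 1 < q) :
    lorentz q (fun k => a 𝕜 N k) ≤ ENNReal.ofReal ((H N) ^ (1 / q)) := by
  have hq0 : 0 < q := by linarith
  have hH : 0 ≤ H N := le_trans zero_le_one (one_le_H N)
  unfold lorentz
  rw [← ENNReal.ofReal_rpow_of_nonneg hH (by positivity)]
  apply ENNReal.rpow_le_rpow _ (by positivity)
  rw [tsum_eq_sum (s := Finset.range (2 * N + 1)), H_eq, ENNReal.ofReal_sum_of_nonneg
    (fun j _ => by positivity)]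
  · refine Finset.sum_le_sum (fun n _ => ?_)
    calc (rearr (fun k => a 𝕜 N k) n) ^ q * ENNReal.ofReal (((n : ℝ) + 1) ^ (q / 2 - 1))
        ≤ (ENNReal.ofReal (1 / Real.sqrt ((n : ℝ) + 1))) ^ q
            * ENNReal.ofReal (((n : ℝ) + 1) ^ (q / 2 - 1)) := by
          gcongr
          exact rearr_le 𝕜 N n
      _ = ENNReal.ofReal (1 / ((n : ℝ) + 1)) := by
          rw [ENNReal.ofReal_rpow_of_nonneg (by positivity) hq0.le, ← ENNReal.ofReal_mul (by positivity)]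
          congr 1
          have hn : (0 : ℝ) < (n : ℝ) + 1 := by positivity
          have e1 : -(1 / 2 : ℝ) * q + (q / 2 - 1) = -1 := by ring
          rw [Real.sqrt_eq_rpow, one_div, ← Real.rpow_neg hn.le, ← Real.rpow_mul hn.le,
            ← Real.rpow_add hn, e1, Real.rpow_neg_one, one_div]
      _ ≤ _ := le_refl _
  · intro n hn
    have hn' : 2 * N + 1 ≤ n := by simpa using hn
    rw [rearr_zero 𝕜 N n hn', ENNReal.zero_rpow_of_pos hq0, zero_mul]

theorem H_tendsto : Tendsto H atTop atTop := by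
  have h1 := Real.tendsto_sum_range_one_div_nat_succ_atTop
  have h2 : Tendsto (fun N : ℕ => 2 * N + 1) atTop atTop :=
    tendsto_atTop_mono (fun N => by show N ≤ 2 * N + 1; omega) tendsto_id
  refine (h1.comp h2).congr (fun N => ?_)
  rw [H_eq]
  rfl

theorem not_embeds {q : ℝ} (hq : 1 < q) : ¬ EmbedsFrom 𝕜 q (x 𝕜) := by
  rintro ⟨C, hC⟩
  have hq0 : 0 < q := by linarith
  have key : ∀ N, (H N) ^ (1 - 1 / q) ≤ C := by
    intro N
    have hH1 := one_le_H N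
    have hH : 0 < H N := by linarith
    have h1 := hC (a 𝕜 N)
    rw [a_sum] at h1
    have h2 : ENNReal.ofReal (H N) ≤ ‖(((1 + β N : ℝ)) : 𝕜) • bv 𝕜 N‖ₑ := by
      rw [← ofReal_norm, norm_smul, norm_bv, RCLike.norm_ofReal,
        abs_of_pos (by have := β_pos N; positivity)]
      apply ENNReal.ofReal_le_ofReal
      rw [← β_sq]
      nlinarith [β_pos N]
    have h3 : (C : ℝ≥0∞) * lorentz q (fun k => a 𝕜 N k) ≤ ENNReal.ofReal (C * (H N) ^ (1 / q)) := by
      rw [ENNReal.ofReal_mul (NNReal.coe_nonneg C), ENNReal.ofReal_coe_nnreal]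
      gcongr
      exact lorentz_le 𝕜 N hq
    have h4 := h2.trans (h1.trans h3)
    have h5 : H N ≤ C * (H N) ^ (1 / q) := by
      rwa [ENNReal.ofReal_le_ofReal_iff (by positivity)] at h4
    rw [Real.rpow_sub hH, Real.rpow_one, div_le_iff₀ (by positivity)]
    exact h5
  have h6 : Tendsto (fun N => (H N) ^ (1 - 1 / q)) atTop atTop := by
    have h7 : 0 < 1 - 1 / q := by
      rw [sub_pos, div_lt_one hq0]
      exact hq
    exact (tendsto_rpow_atTop h7).comp H_tendsto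
  obtain ⟨N, hN⟩ := (h6.eventually_gt_atTop (C : ℝ)).exists
  exact absurd (key N) (not_le.mpr hN)

end Pool.Agent.Results.MP_c77635_an.NoLorentzSqueeze

open Pool.Agent.Results.MP_c77635_an.NoLorentzSqueeze in
/-- A bidemocratic basis of `ℓ²` into which no Lorentz space `ℓ_{2,q}` with `q > 1` embeds. -/
theorem Pool.Agent.Results.MP_c77635_an.NoLorentzSqueeze.result (𝕜 : Type) [RCLike 𝕜] :
    ∃ (x : ℕ → L2 𝕜) (f : ℕ → StrongDual 𝕜 (L2 𝕜)), IsBasis x f ∧ IsBidemocratic x f ∧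
      ∀ q : ℝ, 1 < q → ¬ EmbedsFrom 𝕜 q x :=
  ⟨x 𝕜, f 𝕜, isBasis 𝕜, bidem 𝕜, fun _ hq => not_embeds 𝕜 hq⟩
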